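import Pool.Agent.U687.J8.Top

/-!
# The Bloch–Kato Selmer groups of all weights over all the multiquadratic totally real fields attached to a
# number `m`: exact proportions, ordered by `m`

Let `E_d` be the quadratic twist by `d` of `X_0(49)` and `K = ℚ(√-7)`. Fix a number `K ≥ 1` of primes and let
`m` run, in the natural order, through ALL the squarefree numbers with exactly `K` prime factors, each of
them `1 mod 8` and split in `ℚ(√-7)` or `5 mod 8` and inert in `ℚ(√-7)`. To `m` belong the totally real fields
`F = ℚ(√d_1, …, √d_n)`, `d_i ∣ m`, `d_i ≡ 1 mod 8`; there are independent `d_1, …, d_{K - 1}`, so that one of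
these fields has degree at least `2 ^ (K - 1)`. For every `M ∣ m`, `M ≡ 1 mod 8`, and every `k > 0` the newform
of `ψ_M^{2k-1}` (`ψ_M` the Hecke character of `E_M`) has a base change to `F`, a Hilbert modular newform `g` of
parallel weight `2k`; its Galois representation at the prime `2` is the restriction to `Gal(ℚ̄/F)` of the
representation of `Gal(ℚ̄/ℚ)` induced from the character `κ^k κ'^(1-k)` of `Gal(ℚ̄/ℚ(√-7))`.

* If `E_d(ℚ)` is finite and `Ш(E_d/ℚ)` has no element of order two for all the divisors `d` of `m`
  (`AllTwists m`), then for ALL these `F`, `M` and ALL weights `2k`: `H¹_f(F, V_g) = 0` if `k` is odd, and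
  `dim H¹_f(F, V_g) ≤ 2 ^ n` if `k` is even (the order of vanishing forced by the root numbers, if the `d_i`
  are independent). If `AllTwists m` does not hold, it fails for a divisor with at most three prime factors.
* EXACT PROPORTION. For `s ≤ K` the proportion of the `m ≤ X` with exactly `s` split prime factors and
  `AllTwists m` tends to `share K s = (K choose s) I(s) / 2 ^ (K + s + (K choose 2) - (K - s choose 2))`, `I(s)`
  the number of the involutions in the symmetric group of degree `s`; so the proportion of the `m` with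
  `AllTwists m` tends to `total K = ∑ share K s ≥ 2 ^ (-K)`; `total 1 = 3/4`, `total 2 = 7/16`, `total 3 = 13/64`.

The implication from the divisors to the Selmer groups is that of the starting files `CMFormsAllWeights`,
`CMFormsEvenWeights`, where for a FIXED field of degree `2 ^ n` a proportion at least `c ^ (2 ^ n)` of the
twists is treated. New: `M` and the field vary together, all of them are counted by size, with exact
proportions (`U687/NO`, `U687/J8`: joint law of the quadratic, quartic and mod 8 symbols, bilinear sums;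
classification by matchings of helper120, `U120/MF`).
-/

set_option autoImplicit false

open scoped Classical

namespace Pool.Agent.Results.MP_6e2fc3_nt.FieldsBySize

open Filter Topology
open Pool.Agent.Results.MP_787500_nt.AllWeightsMultiquadraticX49 (RankZeroShaTwo Ind)
open Pool.Agent.Results.MP_6e2fc3_nt.CMFormsAllWeights (AllForms)
open Pool.Agent.Results.MP_6e2fc3_nt.CMFormsEvenWeights (EvenForms)

/-- squarefree, all prime factors `1 mod 8` and split in `ℚ(√-7)` or `5 mod 8` and inert in `ℚ(√-7)` -/
def Class (m : ℕ) : Prop := Squarefree m ∧ ∀ p : ℕ, p.Prime → p ∣ m →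
  (p % 8 = 1 ∧ (p % 7 = 1 ∨ p % 7 = 2 ∨ p % 7 = 4)) ∨
  (p % 8 = 5 ∧ (p % 7 = 3 ∨ p % 7 = 5 ∨ p % 7 = 6))

/-- `E_d(ℚ)` is finite and `Ш(E_d/ℚ)` has no element of order two, for all the divisors `d` of `m` -/
def AllTwists (m : ℕ) : Prop := ∀ d : ℕ, d ∣ m → RankZeroShaTwo d

/-- the statement on the Selmer groups for all the `M` and `F = ℚ(√d_1, …, √d_n)` that belong to `m` -/
def AllFields (m : ℕ) : Prop := ∀ M : ℕ, M ∣ m → M % 8 = 1 →
  ∀ (n : ℕ) (d : Fin n → ℕ), (∀ i, d i ∣ m ∧ d i % 8 = 1) → AllForms M d ∧ EvenForms M d

/-- the `m ≤ X` in the class with exactly `K` prime factors -/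
noncomputable def numbers (K X : ℕ) : Finset ℕ :=
  (Finset.Icc 1 X).filter fun m => Class m ∧ m.primeFactors.card = K

/-- the share of those with the property `Q` -/
noncomputable def proportion (K : ℕ) (Q : ℕ → Prop) (X : ℕ) : ℝ :=
  (((numbers K X).filter Q).card : ℝ) / ((numbers K X).card : ℝ)

/-- the number of the split prime factors of `m` -/
noncomputable def splitNumber (m : ℕ) : ℕ := (m.primeFactors.filter fun p => p % 8 = 1).card

/-- the number of the involutions (the identity included) in the symmetric group of degree `s` -/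
noncomputable def involutions (s : ℕ) : ℕ := Nat.card {σ : Equiv.Perm (Fin s) // σ * σ = 1}

/-- the share of the `m` with `s` split prime factors and `AllTwists m` -/
noncomputable def share (K s : ℕ) : ℝ :=
  ((K.choose s * involutions s : ℕ) : ℝ) / 2 ^ (K + s + (K.choose 2 - (K - s).choose 2))

/-- the share of the `m` with `AllTwists m` -/
noncomputable def total (K : ℕ) : ℝ := ∑ s ∈ Finset.range (K + 1), share K s

/-- **Theorem.** -/
theorem result :
    (∀ m : ℕ, Class m →
      (AllTwists m → AllFields m) ∧
      (¬ AllTwists m → ∃ d : ℕ, d ∣ m ∧ d.primeFactors.card ≤ 3 ∧ ¬ RankZeroShaTwo d) ∧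
      ∃ d : Fin (m.primeFactors.card - 1) → ℕ, (∀ i, d i ∣ m ∧ d i % 8 = 1) ∧ Ind d) ∧
    (∀ K : ℕ, 1 ≤ K →
      (∀ᶠ X : ℕ in atTop, (numbers K X).Nonempty) ∧
      (∀ s : ℕ, s ≤ K → Tendsto (fun X : ℕ =>
        proportion K (fun m => splitNumber m = s ∧ AllTwists m) X) atTop (𝓝 (share K s))) ∧
      Tendsto (fun X : ℕ => proportion K AllTwists X) atTop (𝓝 (total K)) ∧
      (1 / 2 : ℝ) ^ K ≤ total K) ∧
    total 1 = 3 / 4 ∧ total 2 = 7 / 16 ∧ total 3 = 13 / 64 :=
  Pool.Agent.U687.J8.Top.main

end Pool.Agent.Results.MP_6e2fc3_nt.FieldsBySize
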