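import Pool.Agent.Results.MP_787500_nt.InfiniteTowersX49
import Pool.Agent.Results.MP_6e2fc3_nt.CMFormsEvenWeights

/-!
# The Bloch–Kato Selmer groups of the Hilbert modular forms with complex multiplication of all weights over all
# the layers of a totally real extension of `ℚ` of infinite degree, for exactly the proportion `0.4194…`

Let `E_D` be the quadratic twist by `D` of `X_0(49)`, `ψ_D` its Hecke character over `K = ℚ(√-7)`. The class
consists of the squarefree `D ≡ 1 mod 8` with all prime factors `1 mod 8` and split in `K` or `5 mod 8` and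
inert in `K`. For `D` in the class let the tower primes be the primes `q ≡ 5 mod 8` that are inert in `K` and
squares modulo all the prime factors of `D` that split in `K`. They are infinitely many. The fields `F` are
the totally real fields `F = ℚ(√d_1, …, √d_n)`, where the `d_i` are products of an even number of tower
primes; for every `n` there are such fields of degree `2 ^ n`, and they are the finite subfields of one
totally real extension of `ℚ` of infinite degree.

For every `k > 0` the newform of `ψ_D^{2k-1}` has a base change to `F`, a Hilbert modular newform `g` over `F`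
of parallel weight `2k` and trivial central character. Its Galois representation `V_g` at the prime `2` is the
restriction to `Gal(ℚ̄/F)` of the representation of `Gal(ℚ̄/ℚ)` induced from the character `κ^k κ'^(1-k)` of
`Gal(ℚ̄/K)`; here `κ`, `κ'` are the characters by which `Gal(ℚ̄/K)` acts on the `2`-adic Tate module of
`E_D`.

Theorem. Let `E_D(ℚ)` be finite and `Ш(E_D/ℚ)` without element of order two; this is so for exactly the
proportion `c = ∏ (1 - 2^{-(2i+1)}) = 0.4194…` of the `D` of the class. Then for ALL these fields `F` and all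
the twists `M = D ∏_{q ∈ U} q` of the tower (`U` an even number of tower primes, prime factors of `D` allowed):
* all the weights `2k`, `k` odd: `H¹_f(F, V_g) = 0`;
* all the weights `2k`, `k` even: `dim H¹_f(F, V_g) ≤ [F : ℚ]`, the order of vanishing that is forced by
  the root numbers of the `[F : ℚ]` factors of the `L`-function.

In the starting files `CMFormsAllWeights`, `CMFormsEvenWeights` the proportion for the fields of degree
`2 ^ n` is `c ^ (2 ^ n)`, so that nothing is left for an infinite tower.
-/

set_option autoImplicit false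

open scoped Classical

namespace Pool.Agent.Results.MP_6e2fc3_nt.InfiniteTowersAllWeights

open Pool.Agent.Results.MP_787500_nt.AllWeightsMultiquadraticX49 (Adm RankZeroShaTwo prop c Ind)
open Pool.Agent.Results.MP_6e2fc3_nt.CMFormsAllWeights (AllForms)
open Pool.Agent.Results.MP_6e2fc3_nt.CMFormsEvenWeights (EvenForms)

/-- the primes `q ≡ 5 mod 8` that are inert in `ℚ(√-7)` and squares modulo all the prime factors of `D`
that split in `ℚ(√-7)` -/
def TowerPrime (D q : ℕ) : Prop :=
  q.Prime ∧ q % 8 = 5 ∧ (q % 7 = 3 ∨ q % 7 = 5 ∨ q % 7 = 6) ∧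
    ∀ p : ℕ, p.Prime → p ∣ D → (p % 7 = 1 ∨ p % 7 = 2 ∨ p % 7 = 4) → IsSquare (q : ZMod p)

/-- a set of an even number of tower primes -/
def EvenSet (D : ℕ) (S : Finset ℕ) : Prop := (∀ q ∈ S, TowerPrime D q) ∧ Even S.card

/-- `H¹_f(F, V_g) = 0` for the forms of the weights `2k`, `k` odd, and `dim H¹_f(F, V_g) ≤ [F : ℚ]` for the
forms of the weights `2k`, `k` even, for all the twists `M = D ∏_{q ∈ U} q` of `X_0(49)` and over all the layers
`F = ℚ(√d_1, …, √d_n)`, the `d_i` and `∏_{q ∈ U} q` products of an even number of tower primes -/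
def AllLayers (D : ℕ) : Prop :=
  ∀ U : Finset ℕ, EvenSet D U → ∀ (n : ℕ) (S : Fin n → Finset ℕ), (∀ i, EvenSet D (S i)) →
    AllForms (D * ∏ q ∈ U, q) (fun i => ∏ q ∈ S i, q) ∧
      EvenForms (D * ∏ q ∈ U, q) (fun i => ∏ q ∈ S i, q)

/-- **Theorem.** For `D` in the class there are infinitely many tower primes and layers `F` of every degree
`2 ^ n`. If `E_D(ℚ)` is finite and `Ш(E_D/ℚ)` has no element of order two, then `H¹_f(F, V_g) = 0` (weights
`2k`, `k` odd) and `dim H¹_f(F, V_g) ≤ [F : ℚ]` (weights `2k`, `k` even) over all the layers. This is the case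
for exactly the proportion `c = 0.4194…` of the `D` of the class. -/
theorem result :
    (∀ D : ℕ, Adm D → {q : ℕ | TowerPrime D q}.Infinite ∧
      (∀ n : ℕ, ∃ S : Fin n → Finset ℕ, (∀ i, EvenSet D (S i)) ∧ Ind fun i => ∏ q ∈ S i, q) ∧
      (RankZeroShaTwo D → AllLayers D)) ∧
    Filter.Tendsto (prop RankZeroShaTwo) Filter.atTop (nhds c) ∧
    0.4194 < c ∧ c < 0.4195 := by
  have hc := Pool.Agent.Y948.CQ.t_C2.2.2.2
  refine ⟨fun D hD => ⟨Pool.Agent.Results.MP_787500_nt.InfiniteTowersX49.tp_inf hD,
    Pool.Agent.Results.MP_787500_nt.InfiniteTowersX49.exists_ind hD, fun hR U hU n S hS => ?_⟩,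
    Pool.Agent.Results.MP_787500_nt.InfiniteTowersX49.law, hc.1, hc.2⟩
  have h := Pool.Agent.Results.MP_787500_nt.InfiniteTowersX49.good hD hR (U := U) hU S hS
  exact ⟨Pool.Agent.Results.MP_6e2fc3_nt.CMFormsAllWeights.result.1 n _ _ h,
    Pool.Agent.Results.MP_6e2fc3_nt.CMFormsEvenWeights.result.1 n _ _ h⟩

end Pool.Agent.Results.MP_6e2fc3_nt.InfiniteTowersAllWeights
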