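import Pool.Agent.U93.Moved.SplitPrimeTowers
import Pool.Agent.Results.MP_9c97e9_nt.FormulaModTwoX14
import Pool.Agent.Y667.BKP.Main
import Pool.Agent.U747.GE.MQF

/-!
# The Bloch–Kato rank formula at `λ ∣ 2` for base changes of a newform without complex multiplication

`E` is the modular curve `X_0(14)`, `y² + x y + y = x³ + 4 x - 6`, and `f` the newform of level `14`; it has
no complex multiplication. Let `F = ℚ(√d : d ∈ S)`, `S` a finite set of positive integers. The base change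
`g` of `f` to the totally real field `F` is a Hilbert modular newform of parallel weight `2` with trivial
central character and rational eigenvalues, `V_{g,2} = V_2 E`, and `L(g, s) = L(E/F, s + 1)` in the
normalization of the problem.

A prime is called inert if it is `5` modulo `8` and not a square modulo `7`, and split if it is `1` modulo
`8` and a square modulo `7`. The class consists of the squarefree `D ≥ 1` with any number of inert and at
most two split prime factors. The set `S` is good if every product of elements of `S` is a square times a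
number `D` of the class such that the twist `E_D` has finitely many points over `ℚ` and
`Ш(E_D/ℚ)[2^∞] = 0`; by the criterion below this is a condition on quadratic and quartic symbols.

* **The formula.** For every good `S` the formula of Bloch and Kato holds for `g` and `λ = 2`, both sides
  being zero: `L(g, s)` is entire and not zero at the centre, and `H¹_f(F, V_{g,2}) = 0`; more precisely
  `E(F)` is finite and `2^#S` kills `Ш(E/F)[2^∞]`.
* **Criterion.** For `D` in the class `E_D(ℚ)` is finite and `Ш(E_D/ℚ)[2^∞] = 0` if and only if an explicit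
  symmetric matrix over the field with two elements is nonsingular.
* **Growth.** If `S` is good and `l` is an inert prime that is a square modulo the split primes which
  divide elements of `S`, then `S ∪ {l}` is good. These `l` have the density `1 / 2 ^ n` among the inert
  primes, `n` the number of these split primes. So there are infinitely many towers of such fields `F` of
  unbounded degree, and their first steps `ℚ(√D)` are all with `D` as in the criterion.

Proof. The `L`-function of `E` over `F` is the product of those of the twists by the products of elements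
of `S`; their central values are not zero by the theorem on the formula modulo two for these twists
(`MP_9c97e9_nt.FormulaModTwoX14`: sums of modular symbols). On the other side the 2-descents over `ℚ` give
the `2`-primary part of `Ш(E/F)` up to a bounded exponent (`U747/GE/MQF`), and the description of
`H¹_f(F, V_2 E)` by the local Kummer maps (`Y667/BKP`) that it is zero.
-/

set_option autoImplicit false
set_option linter.style.haveILetI false

open NumberField IsDedekindDomain Filter Topology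

namespace Pool.Agent.Results.MP_6e2fc3_nt.NonCMBaseChanges

open scoped Classical

open Pool.Agent.TH841.NF.D (Sha)
open Pool.Agent.Y667.BKP (H1f)
open Pool.Agent.Results.MP_cd906c_nt.SplitPrimeTowers (E base factor multiquadratic Inert Split)
open Pool.Agent.Results.MP_9c97e9_nt.FormulaModTwoX14 (split mat)

/-- the twist `E_D : y² = x³ + 13 D x² + 128 D² x` of `X_0(14)` -/
def twist (D : ℕ) : WeierstrassCurve ℚ := ⟨0, 13 * D, 0, 128 * D ^ 2, 0⟩

/-- `E_D(ℚ)` is finite and the `2`-primary part of `Ш(E_D/ℚ)` is zero -/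
def Trivial (D : ℕ) : Prop :=
  Finite (twist D).toAffine.Point ∧ ∀ (n : ℕ) (x : Sha (twist D)), 2 ^ n • x = 0 → x = 0

/-- `D` is squarefree with inert and at most two split prime factors -/
def Class (D : ℕ) : Prop :=
  Squarefree D ∧ (∀ p ∈ D.primeFactors, Split p ∨ Inert p) ∧ (split D).card ≤ 2

/-- every product of elements of `S` is a square times a number `D` of the class with `Trivial D` -/
def GoodSet (S : Finset ℤ) : Prop :=
  ∀ U ⊆ S, ∃ D r : ℕ, r ≠ 0 ∧ ∏ d ∈ U, d = ((D * r ^ 2 : ℕ) : ℤ) ∧ Class D ∧ Trivial D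

/-- The formula of Bloch and Kato for the Hilbert modular newform `g` of `E = X_0(14)` over `F` and
`λ = 2`, both sides being zero: the `L`-function `L(E/F, s) = L(g, s - 1)`, with all its Euler factors, is
entire, its order of vanishing at `s = 1` is zero, and the Bloch–Kato Selmer group `H¹_f(F, V_2 E)` is
zero. -/
structure RankFormula (F : Type) [Field F] [NumberField F] : Prop where
  analytic : ∃ L : ℂ → ℂ, Differentiable ℂ L ∧
    (∀ s : ℂ, 3 / 2 < s.re → HasProd (factor (K := F) E s) (L s)) ∧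
    analyticOrderAt L 1 = 0 ∧ L 1 ≠ 0
  selmer : ∀ x : H1f 2 (base E F), x = 0

/-! ### Proofs -/

section proof

open Pool.Agent.U115.XP (kap Ker HB ine spl hb_of nn_rt rt_mul kap_sing kap_pair kap_zero')
open Pool.Agent.U115.MQ (GT)
open Pool.Agent.Y687 (Rt NN Cond2)
open Pool.Agent.Y682 (wc)

/-- the good numbers -/
def GK (D : ℕ) : Prop := ∃ P S : Finset ℕ, (∀ p ∈ P, Split p) ∧ (∀ q ∈ S, Inert q) ∧
  P.card ≤ 2 ∧ D = (∏ p ∈ P, p) * ∏ q ∈ S, q ∧ kap (∏ q ∈ S, q) P = 1

theorem split_eq (D : ℕ) : split D = spl D := rfl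

theorem dat {D : ℕ} (h : Class D) : (∀ p ∈ spl D, Split p) ∧ (∀ q ∈ ine D, Inert q) ∧
    D = (∏ p ∈ spl D, p) * ∏ q ∈ ine D, q := by
  obtain ⟨h2, h3, h4⟩ := h
  refine ⟨fun p hp => ?_, fun q hq => ?_, Pool.Agent.U115.XP.prod_eq h2⟩
  · obtain ⟨h5, h6⟩ := Finset.mem_filter.1 hp
    rcases h3 p h5 with h7 | h7
    · exact h7
    · have := h7.2.1
      omega
  · obtain ⟨h5, h6⟩ := Finset.mem_filter.1 hq
    rcases h3 q h5 with h7 | h7
    · exact absurd h7.2.1 h6
    · exact h7

theorem triv_kap {D : ℕ} {P S : Finset ℕ} (hP : ∀ p ∈ P, Split p) (hS : ∀ q ∈ S, Inert q)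
    (hD : D = (∏ p ∈ P, p) * ∏ q ∈ S, q) : Trivial D ↔ kap (∏ q ∈ S, q) P = 1 :=
  (hb_of hP hS).iff hD

theorem gk_of {D : ℕ} (h : Class D) (ht : Trivial D) : GK D := by
  obtain ⟨h1, h2, h3⟩ := dat h
  exact ⟨spl D, ine D, h1, h2, h.2.2, h3, (triv_kap h1 h2 h3).1 ht⟩

theorem class_of {D : ℕ} {P S : Finset ℕ} (hP : ∀ p ∈ P, Split p) (hS : ∀ q ∈ S, Inert q)
    (hc : P.card ≤ 2) (hD : D = (∏ p ∈ P, p) * ∏ q ∈ S, q) : Class D := by
  have hb := hb_of hP hS
  have hPp : ∀ p ∈ P, p.Prime := fun p hp => (hP p hp).1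
  have hSp : ∀ q ∈ S, q.Prime := fun q hq => (hS q hq).1
  have hP0 : (∏ p ∈ P, p) ≠ 0 := Finset.prod_ne_zero_iff.2 fun p hp => (hPp p hp).ne_zero
  have hS0 : (∏ q ∈ S, q) ≠ 0 := Finset.prod_ne_zero_iff.2 fun p hp => (hSp p hp).ne_zero
  have hpf : D.primeFactors = P ∪ S := by
    rw [hD, Nat.primeFactors_mul hP0 hS0, Nat.primeFactors_prod hPp, Nat.primeFactors_prod hSp]
  refine ⟨?_, fun p hp => ?_, le_trans (Finset.card_le_card ?_) hc⟩
  · have h1 := hb.sqf
    rw [← hD] at h1
    exact Int.squarefree_natCast.1 h1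
  · rw [hpf, Finset.mem_union] at hp
    rcases hp with h | h
    · exact Or.inl (hP p h)
    · exact Or.inr (hS p h)
  · intro p hp
    obtain ⟨h5, h6⟩ := Finset.mem_filter.1 hp
    rw [hpf, Finset.mem_union] at h5
    rcases h5 with h | h
    · exact h
    · have := (hS p h).2.1
      omega

theorem of_gk {D : ℕ} (h : GK D) : Class D ∧ Trivial D := by
  obtain ⟨P, S, h1, h2, h3, h4, h5⟩ := h
  exact ⟨class_of h1 h2 h3 h4, (triv_kap h1 h2 h4).2 h5⟩

/-- the criterion -/
theorem crit {D : ℕ} (h : Class D) : Trivial D ↔ (mat D).det ≠ 0 := by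
  obtain ⟨h1, h2, h3⟩ := dat h
  rw [triv_kap h1 h2 h3, Pool.Agent.U115.XP.kap_eq (hb_of h1 h2) (fun q hq => (h2 q hq).1) rfl
    (Pool.Agent.U115.XP.spl_ine D), Pool.Agent.U115.XP.kap_one,
    Pool.Agent.Results.MP_9c97e9_nt.FormulaModTwoX14.mat_eq]
  exact Iff.rfl

theorem gk_GT {D : ℕ} (h : GK D) : GT D := by
  obtain ⟨P, S, hP, hS, hc, hD, hk⟩ := h
  have hcases : P.card = 0 ∨ P.card = 1 ∨ P.card = 2 := by omega
  rcases hcases with h0 | h0 | h0
  · have hPe : P = ∅ := Finset.card_eq_zero.1 h0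
    rw [hPe, Finset.prod_empty, one_mul] at hD
    exact Or.inl ⟨S, hS, hD⟩
  · obtain ⟨p, hp⟩ := Finset.card_eq_one.1 h0
    rw [hp] at hD hk
    rw [Finset.prod_singleton] at hD
    have hp' : Split p := hP p (by rw [hp]; exact Finset.mem_singleton_self p)
    refine Or.inr (Or.inl ⟨p, S, hp', hS, ?_, hD⟩)
    exact (nn_rt hp' hS).2 ((kap_sing _ _).1 hk)
  · obtain ⟨p1, p2, hne, hp⟩ := Finset.card_eq_two.1 h0
    have h1 : Split p1 := hP p1 (by rw [hp]; exact Finset.mem_insert_self _ _)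
    have h2 : Split p2 := hP p2 (by rw [hp]; exact Finset.mem_insert_of_mem (Finset.mem_singleton_self _))
    rw [hp] at hD hk
    rw [Finset.prod_pair hne] at hD
    refine Or.inr (Or.inr ⟨p1, p2, S, hne, h1, h2, hS, ?_, hD⟩)
    obtain ⟨k1, k2⟩ := (kap_pair hne h1 h2 _).1 hk
    rw [← nn_rt h1 hS, ← nn_rt h2 hS] at k1 k2
    by_cases hs : IsSquare (p1 : ZMod p2)
    · exact Or.inl (k1 hs)
    · exact Or.inr ⟨hs, k2⟩

/-- the kernel depends on the roots only -/
theorem kap_congr {m m' : ℕ} {P : Finset ℕ} (h : ∀ p ∈ P, (Rt p m ↔ Rt p m')) :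
    kap m P = kap m' P := by
  unfold kap
  refine congrArg Finset.card (Finset.filter_congr fun J hJ => ?_)
  have hJP := Finset.mem_powerset.1 hJ
  unfold Ker
  refine and_congr_right fun _ => forall₂_congr fun p hp => ?_
  rw [h p (hJP hp)]

theorem rt_sq {p m l : ℕ} (hp : Split p) (hm : ¬ p ∣ m) (hl : ¬ p ∣ l)
    (hsq : IsSquare (l : ZMod p)) : Rt p m ↔ Rt p (m * l) := by
  haveI : Fact p.Prime := ⟨hp.1⟩
  have hm0 : (m : ZMod p) ≠ 0 := by
    rw [Ne, ZMod.natCast_eq_zero_iff]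
    exact hm
  have hl0 : (l : ZMod p) ≠ 0 := by
    rw [Ne, ZMod.natCast_eq_zero_iff]
    exact hl
  have hml : ((m * l : ℕ) : ZMod p) ≠ 0 := by
    push_cast
    exact mul_ne_zero hm0 hl0
  have h7 := (Pool.Agent.U115.TP.split_pr hp).2.2.2
  rw [rt_mul hp.2.1 h7 hm0, rt_mul hp.2.1 h7 hml]
  have e : IsSquare (m : ZMod p) ↔ IsSquare ((m * l : ℕ) : ZMod p) := by
    push_cast
    constructor
    · intro h
      exact h.mul hsq
    · intro h
      obtain ⟨t, ht⟩ := hsq
      have ht0 : t ≠ 0 := by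
        rintro rfl
        rw [mul_zero] at ht
        exact hl0 ht
      obtain ⟨u, hu⟩ := h
      refine ⟨u / t, ?_⟩
      rw [div_mul_div_comm, eq_div_iff (mul_ne_zero ht0 ht0), ← hu, ht]
  rw [e]

theorem gk_step {D l : ℕ} (h : GK D) (hl : Inert l)
    (hsq : ∀ p : ℕ, Split p → p ∣ D → IsSquare (l : ZMod p)) :
    ∃ D' r : ℕ, r ≠ 0 ∧ D * l = D' * r ^ 2 ∧ GK D' := by
  obtain ⟨P, S, hP, hS, hc, hD, hk⟩ := h
  have hpl : ∀ p ∈ P, ¬ p ∣ l := by
    intro p hp h
    have h1 := (Nat.prime_dvd_prime_iff_eq (hP p hp).1 hl.1).1 h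
    have h2 := (hP p hp).2.1
    have h3 := hl.2.1
    omega
  have hsq' : ∀ p ∈ P, IsSquare (l : ZMod p) := fun p hp => hsq p (hP p hp) (by
    rw [hD]
    exact Dvd.dvd.mul_right (Finset.dvd_prod_of_mem (fun p => p) hp) _)
  by_cases hlS : l ∈ S
  · have hS' : ∀ q ∈ S.erase l, Inert q := fun q hq => hS q (Finset.mem_of_mem_erase hq)
    have e : (∏ q ∈ S.erase l, q) * l = ∏ q ∈ S, q := Finset.prod_erase_mul S (fun q => q) hlS
    refine ⟨(∏ p ∈ P, p) * ∏ q ∈ S.erase l, q, l, hl.1.ne_zero, ?_, P, S.erase l, hP, hS', hc, rfl, ?_⟩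
    · rw [hD, ← e]
      ring
    · rw [← hk, ← e]
      exact kap_congr fun p hp => rt_sq (hP p hp)
        (Pool.Agent.Y687.split_not_dvd (hP p hp) hS') (hpl p hp) (hsq' p hp)
  · have hS' : ∀ q ∈ insert l S, Inert q := fun q hq => by
      rcases Finset.mem_insert.1 hq with rfl | h
      · exact hl
      · exact hS q h
    have e : ∏ q ∈ insert l S, q = (∏ q ∈ S, q) * l := by
      rw [Finset.prod_insert hlS, mul_comm]
    refine ⟨(∏ p ∈ P, p) * ∏ q ∈ insert l S, q, 1, one_ne_zero, ?_, P, insert l S, hP, hS', hc, rfl, ?_⟩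
    · rw [hD, e]
      ring
    · rw [← hk, e]
      exact (kap_congr fun p hp => rt_sq (hP p hp)
        (Pool.Agent.Y687.split_not_dvd (hP p hp) hS) (hpl p hp) (hsq' p hp)).symm

theorem gk_one : GK 1 :=
  ⟨∅, ∅, by simp, by simp, by simp, by simp, by simpa using kap_zero' 1⟩

theorem single {D : ℕ} (h : Class D) (ht : Trivial D) : GoodSet {(D : ℤ)} := by
  intro U hU
  rcases Finset.subset_singleton_iff.1 hU with rfl | rfl
  · exact ⟨1, 1, one_ne_zero, by simp, of_gk gk_one⟩
  · exact ⟨D, 1, one_ne_zero, by simp, h, ht⟩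

theorem grow {S : Finset ℤ} (h : GoodSet S) {l : ℕ} (hl : Inert l)
    (hsq : ∀ p : ℕ, Split p → (∃ d ∈ S, (p : ℤ) ∣ d) → IsSquare (l : ZMod p)) :
    GoodSet (insert (l : ℤ) S) := by
  intro U hU
  by_cases hlU : (l : ℤ) ∈ U ∧ (l : ℤ) ∉ S
  · obtain ⟨hlU, hlS⟩ := hlU
    have hU' : U.erase (l : ℤ) ⊆ S := by
      intro x hx
      rw [Finset.mem_erase] at hx
      exact (Finset.mem_insert.1 (hU hx.2)).resolve_left hx.1
    obtain ⟨D, r, hr, h1, h2⟩ := h _ hU'
    obtain ⟨D', r', hr', h3, h4⟩ := gk_step (gk_of h2.1 h2.2) hl (by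
      intro p hp hpD
      refine hsq p hp ?_
      have h5 : (p : ℤ) ∣ ∏ d ∈ U.erase (l : ℤ), d := by
        rw [h1, Int.natCast_dvd_natCast]
        exact hpD.mul_right _
      obtain ⟨d, hd, h6⟩ := ((Nat.prime_iff_prime_int.1 hp.1).dvd_finsetProd_iff _).1 h5
      exact ⟨d, hU' hd, h6⟩)
    refine ⟨D', r' * r, Nat.mul_ne_zero hr' hr, ?_, of_gk h4⟩
    rw [← Finset.mul_prod_erase U (fun d => d) hlU, h1]
    have h7 : ((D * l : ℕ) : ℤ) = ((D' * r' ^ 2 : ℕ) : ℤ) := by rw [h3]
    push_cast at h7 ⊢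
    linear_combination (r : ℤ) ^ 2 * h7
  · refine h U fun x hx => ?_
    rcases Finset.mem_insert.1 (hU hx) with h1 | h1
    · by_contra h2
      exact hlU ⟨h1 ▸ hx, fun h3 => h2 (h1 ▸ h3)⟩
    · exact h1

/-- the elements of a good set -/
theorem elem {S : Finset ℤ} (h : GoodSet S) {d : ℤ} (hd : d ∈ S) (hsq : Squarefree d) :
    ∃ D : ℕ, d = (D : ℤ) ∧ Class D ∧ Trivial D := by
  obtain ⟨D, r, hr, h3, h4⟩ := h {d} (Finset.singleton_subset_iff.2 hd)
  rw [Finset.prod_singleton] at h3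
  have h5 : IsUnit (r : ℤ) := by
    refine hsq _ ⟨(D : ℤ), ?_⟩
    rw [h3]
    push_cast
    ring
  have h6 : r = 1 := by
    rw [Int.isUnit_iff] at h5
    omega
  subst h6
  refine ⟨D, ?_, h4⟩
  rw [h3]
  push_cast
  ring

/-- the analytic side -/
theorem ana (S : Finset ℤ) (hG : GoodSet S) (hsq : ∀ d ∈ S, Squarefree d)
    (F₀ : IntermediateField ℚ ℂ) [NumberField F₀] (hF₀ : F₀ = multiquadratic S) :
    ∃ L : ℂ → ℂ, Differentiable ℂ L ∧
      (∀ s : ℂ, 3 / 2 < s.re → HasProd (factor (K := F₀) E s) (L s)) ∧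
      analyticOrderAt L 1 = 0 ∧ L 1 ≠ 0 := by
  have hG' : ∀ U ⊆ S, ∃ D r : ℕ, r ≠ 0 ∧ ∏ d ∈ U, d = ((D * r ^ 2 : ℕ) : ℤ) ∧ GT D := by
    intro U hU
    obtain ⟨D, r, h1, h2, h3, h4⟩ := hG U hU
    exact ⟨D, r, h1, h2, gk_GT (gk_of h3 h4)⟩
  haveI : NumberField (⊥ : IntermediateField ℚ ℂ) :=
    { to_charZero := inferInstance, to_finiteDimensional := inferInstance }
  have e0 : ℚ ≃+* (⊥ : IntermediateField ℚ ℂ) :=
    (IntermediateField.botEquiv ℚ ℂ).symm.toRingEquiv
  have hprime : ∀ p : ℕ, p.Prime → (Ideal.span {((p : ℕ) : 𝓞 (⊥ : IntermediateField ℚ ℂ))}).IsPrime :=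
    fun p hp => Pool.Agent.Y682.XD.prime_tr e0 p (Pool.Agent.Y682.XF.prime_Q hp)
  have hodd : Odd (Module.finrank ℚ (⊥ : IntermediateField ℚ ℂ)) := by
    rw [IntermediateField.finrank_bot]
    exact odd_one
  obtain ⟨G₀, G, h1, -, h3, -, -, -, -, h8, -⟩ :=
    Pool.Agent.U115.MQ.main_gen
      Pool.Agent.Results.MP_cd906c_nt.MultiquadraticTowers.parts 3
      Nat.prime_three.isPrimePow (by norm_num) ⊥ bot_le hodd (Or.inl dvd_rfl) S (by
        intro d hdS
        obtain ⟨D, rfl, h3, h3'⟩ := elem hG hdS (hsq d hdS)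
        have hGT := gk_GT (gk_of h3 h3')
        refine ⟨hsq _ hdS, ?_, fun p hp hpd => ⟨?_, Or.inr (hprime p hp)⟩⟩
        · have := hGT.mod4
          omega
        · intro h14
          obtain ⟨h4, h5⟩ := hGT.prime4 hp (Int.natCast_dvd_natCast.1 hpd)
          have h6 : p ∣ 2 * 7 := h14
          rcases (hp.dvd_mul).1 h6 with h | h
          · rw [(Nat.prime_dvd_prime_iff_eq hp Nat.prime_two).1 h] at h4
            omega
          · exact h5 ((Nat.prime_dvd_prime_iff_eq hp (by norm_num)).1 h)) hG' F₀ F₀ hF₀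
            (sup_bot_eq F₀).symm
  refine ⟨G₀, h1, fun s hs => ?_, analyticOrderAt_eq_zero.2 (Or.inr h8), h8⟩
  rw [Pool.Agent.Results.MP_cd906c_nt.SplitPrimeTowers.factor_eq]
  exact h3 s hs

/-- two squarefree numbers which differ by squares -/
theorem sqf_eq {M N r s : ℕ} (hM : Squarefree M) (hN : Squarefree N) (hr : r ≠ 0) (hs : s ≠ 0)
    (h : M * r ^ 2 = N * s ^ 2) : M = N := by
  have key : ∀ {M N r s : ℕ}, Squarefree M → Squarefree N → r ≠ 0 → s ≠ 0 →
      M * r ^ 2 = N * s ^ 2 → M.primeFactors ⊆ N.primeFactors := by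
    intro M N r s hM hN hr hs h p hp
    have hpp := Nat.prime_of_mem_primeFactors hp
    haveI : Fact p.Prime := ⟨hpp⟩
    have h1 : (M * r ^ 2).factorization p = (N * s ^ 2).factorization p := by rw [h]
    rw [Nat.factorization_mul hM.ne_zero (pow_ne_zero 2 hr),
      Nat.factorization_mul hN.ne_zero (pow_ne_zero 2 hs), Nat.factorization_pow,
      Nat.factorization_pow] at h1
    simp only [Finsupp.add_apply, Finsupp.smul_apply, smul_eq_mul] at h1
    have h2 := (Nat.squarefree_iff_factorization_le_one hM.ne_zero).1 hM p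
    have h3 := (Nat.squarefree_iff_factorization_le_one hN.ne_zero).1 hN p
    have h4 : 0 < M.factorization p :=
      hpp.factorization_pos_of_dvd hM.ne_zero (Nat.dvd_of_mem_primeFactors hp)
    have h5 : N.factorization p ≠ 0 := by omega
    rw [Nat.mem_primeFactors]
    refine ⟨hpp, ?_, hN.ne_zero⟩
    by_contra h6
    exact h5 (Nat.factorization_eq_zero_of_not_dvd h6)
  have e : M.primeFactors = N.primeFactors :=
    Finset.Subset.antisymm (key hM hN hr hs h) (key hN hM hs hr h.symm)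
  rw [← Nat.prod_primeFactors_of_squarefree hM, ← Nat.prod_primeFactors_of_squarefree hN, e]

theorem twE_eq (D : ℕ) : Pool.Agent.U115.GE.twE 13 128 D = twist D := by
  unfold Pool.Agent.U115.GE.twE twist Pool.Agent.Y682.wc
  push_cast
  rfl

theorem top_of {K : Type} [Field K] [NumberField K] {n : ℕ} (φ : K →+* ℂ) (r : Fin n → K)
    (h : ∀ x : K, φ x ∈ IntermediateField.adjoin ℚ (Set.range fun i => φ (r i))) :
    IntermediateField.adjoin ℚ (Set.range r) = ⊤ := by
  let ψ : K →ₐ[ℚ] ℂ := φ.toRatAlgHom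
  rw [eq_top_iff]
  intro x _
  have h1 : (IntermediateField.adjoin ℚ (Set.range r)).map ψ =
      IntermediateField.adjoin ℚ (Set.range fun i => φ (r i)) := by
    rw [IntermediateField.adjoin_map, ← Set.range_comp]
    rfl
  have h2 := h x
  rw [← h1] at h2
  obtain ⟨y, hy, hyx⟩ := h2
  have h3 : y = x := φ.injective hyx
  rw [← h3]
  exact hy

theorem real_of {K : Type} [Field K] [NumberField K] {n : ℕ} {m : Fin n → ℕ} (r : Fin n → K)
    (hr : ∀ i, r i ^ 2 = (m i : K)) (htop : IntermediateField.adjoin ℚ (Set.range r) = ⊤) :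
    IsTotallyReal K := by
  refine ⟨fun v => ?_⟩
  rw [InfinitePlace.isReal_iff, ComplexEmbedding.isReal_iff]
  have h1 : ∀ x : K, x ∈ IntermediateField.adjoin ℚ (Set.range r) →
      (starRingEnd ℂ) (v.embedding x) = v.embedding x := by
    intro x hx
    induction hx using IntermediateField.adjoin_induction with
    | mem x hx =>
      obtain ⟨i, rfl⟩ := hx
      have h2 : v.embedding (r i) ^ 2 = (m i : ℂ) := by
        rw [← map_pow, hr i, map_natCast]
      have h3 : (((Real.sqrt (m i) : ℝ) : ℂ)) ^ 2 = (m i : ℂ) := by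
        rw [← Complex.ofReal_pow, Real.sq_sqrt (Nat.cast_nonneg _), Complex.ofReal_natCast]
      rcases sq_eq_sq_iff_eq_or_eq_neg.1 (h2.trans h3.symm) with h | h
      · rw [h, Complex.conj_ofReal]
      · rw [h, map_neg, Complex.conj_ofReal]
    | algebraMap q => simp
    | add x y _ _ hx hy => rw [map_add, map_add, hx, hy]
    | inv x _ hx => rw [map_inv₀, map_inv₀, hx]
    | mul x y _ _ hx hy => rw [map_mul, map_mul, hx, hy]
  ext x
  rw [ComplexEmbedding.conjugate_coe_eq]
  exact h1 x (by rw [htop]; trivial)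

theorem trans_of (F : Type) [Field F] [NumberField F] (n : ℕ)
    (hfin : Finite (wc (13 : F) 128).toAffine.Point)
    (hsha : ∀ (k : ℕ) (x : Sha (wc (13 : F) 128)), 2 ^ k • x = 0 → 2 ^ n • x = 0) :
    Finite (base E F).toAffine.Point ∧
      ∀ (k : ℕ) (x : Sha (base E F)), 2 ^ k • x = 0 → 2 ^ n • x = 0 := by
  obtain ⟨⟨e1⟩, ⟨e2⟩⟩ := Pool.Agent.Y655.XT.s_shavc F
    (Pool.Agent.W97.MT.E14.map (Int.castRingHom F)) (wc 13 128) (Pool.Agent.Y682.XT.CV F)
    Pool.Agent.Y682.XT.disc_ne Pool.Agent.Y682.XT.cv_eq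
  change Finite (Pool.Agent.W97.MT.E14.map (Int.castRingHom F)).toAffine.Point ∧
    ∀ (k : ℕ) (x : Sha (Pool.Agent.W97.MT.E14.map (Int.castRingHom F))), 2 ^ k • x = 0 →
      2 ^ n • x = 0
  refine ⟨Finite.of_equiv _ e1.toEquiv.symm, fun k x hx => ?_⟩
  have h1 := hsha k (e2 x) (by rw [← map_nsmul, hx, map_zero])
  rw [← map_nsmul] at h1
  exact (map_eq_zero_iff e2 e2.injective).1 h1

/-- the algebraic side -/
theorem alg (S : Finset ℤ) (hG : GoodSet S) (hsq : ∀ d ∈ S, Squarefree d)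
    (F₀ : IntermediateField ℚ ℂ) [NumberField F₀] (hF₀ : F₀ = multiquadratic S) :
    IsTotallyReal F₀ ∧ Finite (base E F₀).toAffine.Point ∧
      ∀ (k : ℕ) (x : Sha (base E F₀)), 2 ^ k • x = 0 → 2 ^ S.card • x = 0 := by
  -- the elements
  have hel : ∀ i : Fin S.card, ∃ (D : ℕ) (z : ℂ), ((S.equivFin.symm i : S) : ℤ) = (D : ℤ) ∧
      Class D ∧ Trivial D ∧ z ^ 2 = (D : ℂ) := by
    intro i
    obtain ⟨D, h1, h2, h3⟩ := elem hG (S.equivFin.symm i).2 (hsq _ (S.equivFin.symm i).2)
    obtain ⟨z, hz⟩ : ∃ z : ℂ, z ^ 2 = (D : ℂ) := IsAlgClosed.exists_pow_nat_eq _ (by norm_num)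
    exact ⟨D, z, h1, h2, h3, hz⟩
  choose m z hm hmc hmt hz using hel
  have hzF : ∀ i, z i ∈ F₀ := by
    intro i
    rw [hF₀]
    unfold multiquadratic
    refine IntermediateField.subset_adjoin ℚ _ ⟨_, (S.equivFin.symm i).2, ?_⟩
    rw [hz i, hm i]
    push_cast
    rfl
  let r : Fin S.card → F₀ := fun i => ⟨z i, hzF i⟩
  have hr : ∀ i, r i ^ 2 = (m i : F₀) := fun i => Subtype.ext (by
    show z i ^ 2 = _
    rw [hz i]
    push_cast
    rfl)
  have hgen : IntermediateField.adjoin ℚ (Set.range z) = F₀ := by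
    apply le_antisymm
    · rw [IntermediateField.adjoin_le_iff]
      rintro _ ⟨i, rfl⟩
      exact hzF i
    · rw [hF₀]
      unfold multiquadratic
      rw [IntermediateField.adjoin_le_iff]
      rintro w ⟨d, hd, hw⟩
      have h1 : ((S.equivFin.symm (S.equivFin ⟨d, hd⟩) : S) : ℤ) = d := by
        rw [Equiv.symm_apply_apply]
      have h2 := hm (S.equivFin ⟨d, hd⟩)
      rw [h1] at h2
      have h3 := hz (S.equivFin ⟨d, hd⟩)
      have h4 : w ^ 2 = z (S.equivFin ⟨d, hd⟩) ^ 2 := by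
        rw [hw, h3]
        exact_mod_cast congrArg (fun x : ℤ => (x : ℂ)) h2
      have h5 : z (S.equivFin ⟨d, hd⟩) ∈ IntermediateField.adjoin ℚ (Set.range z) :=
        IntermediateField.subset_adjoin ℚ _ ⟨_, rfl⟩
      rcases sq_eq_sq_iff_eq_or_eq_neg.1 h4 with h | h
      · rw [h]
        exact h5
      · rw [h]
        exact neg_mem h5
  have htop := top_of (K := F₀) (F₀.subtype : F₀ →+* ℂ) r fun x => by
    have e1 : Set.range (fun i => (F₀.subtype : F₀ →+* ℂ) (r i)) = Set.range z := rfl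
    rw [e1, hgen]
    exact x.2
  obtain ⟨hfin, hsha⟩ := Pool.Agent.U747.GE.t_MQF 13 128 1 S.card m (by norm_num) (by norm_num)
    one_ne_zero (fun i => (hmc i).1.ne_zero) (fun T N g hN e => by
      set U : Finset ℤ := T.image fun i => ((S.equivFin.symm i : S) : ℤ) with hU
      have hUS : U ⊆ S := by
        intro x hx
        obtain ⟨i, -, rfl⟩ := Finset.mem_image.1 hx
        exact (S.equivFin.symm i).2
      obtain ⟨D, s, hs, h1, h2, h3⟩ := hG U hUS
      have hinj : Function.Injective fun i => ((S.equivFin.symm i : S) : ℤ) :=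
        Subtype.val_injective.comp S.equivFin.symm.injective
      have h4 : ∏ d ∈ U, d = ((∏ i ∈ T, m i : ℕ) : ℤ) := by
        rw [hU, Finset.prod_image fun i _ j _ h => hinj h, Nat.cast_prod]
        exact Finset.prod_congr rfl fun i _ => hm i
      have h5 : N * g ^ 2 = D * s ^ 2 := by
        rw [h4] at h1
        rw [e, one_mul]
        exact_mod_cast h1
      have hg : g ≠ 0 := by
        rintro rfl
        rw [zero_pow two_ne_zero, mul_zero] at h5
        exact (mul_ne_zero h2.1.ne_zero (pow_ne_zero 2 hs)) h5.symm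
      have h6 : N = D := sqf_eq hN h2.1 hg hs h5
      rw [h6, twE_eq]
      exact ⟨h3.1, fun x hx => h3.2 1 x (by rw [pow_one]; exact hx)⟩) F₀ r hr htop
  have ew : wc (((13 : ℤ) : F₀) * ((1 : ℕ) : F₀)) (((128 : ℤ) : F₀) * ((1 : ℕ) : F₀) ^ 2) =
      wc (13 : F₀) 128 := by
    push_cast
    rw [mul_one, one_pow, mul_one]
  rw [ew] at hfin hsha
  exact ⟨real_of r hr htop, trans_of F₀ S.card hfin hsha⟩

end proof

/-- **The formula of Bloch and Kato at `λ = 2` for base changes of the newform of level `14`.** -/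
theorem result :
    (∀ S : Finset ℤ, GoodSet S → (∀ d ∈ S, Squarefree d) →
      ∀ (F : IntermediateField ℚ ℂ) [NumberField F], F = multiquadratic S →
        IsTotallyReal F ∧ RankFormula F ∧ Finite (base E F).toAffine.Point ∧
          ∀ (k : ℕ) (x : Sha (base E F)), 2 ^ k • x = 0 → 2 ^ S.card • x = 0) ∧
    (∀ D : ℕ, Class D → (Trivial D ↔ (mat D).det ≠ 0)) ∧
    (∀ D : ℕ, Class D → Trivial D → GoodSet {(D : ℤ)}) ∧
    (∀ S : Finset ℤ, GoodSet S → ∀ l : ℕ, Inert l →
      (∀ p : ℕ, Split p → (∃ d ∈ S, (p : ℤ) ∣ d) → IsSquare (l : ZMod p)) →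
      GoodSet (insert (l : ℤ) S)) ∧
    (∀ P : Finset ℕ, (∀ p ∈ P, Split p) →
      Tendsto (fun X : ℕ =>
        (((Finset.Icc 1 X).filter fun l => Inert l ∧ ∀ p ∈ P, IsSquare (l : ZMod p)).card : ℝ) /
        (((Finset.Icc 1 X).filter fun l => Inert l).card : ℝ)) atTop (𝓝 (1 / 2 ^ P.card))) := by
  refine ⟨fun S hG hsq F _ hF => ?_, fun D h => crit h, fun D h ht => single h ht,
    fun S h l hl hsq => grow h hl hsq,
    Pool.Agent.Results.MP_cd906c_nt.SplitPrimeTowers.density⟩
  obtain ⟨h1, h2, h3⟩ := alg S hG hsq F hF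
  exact ⟨h1, ⟨ana S hG hsq F hF, Pool.Agent.Y667.BKP.h1f_zero Nat.prime_two h2 S.card h3⟩, h2, h3⟩

end Pool.Agent.Results.MP_6e2fc3_nt.NonCMBaseChanges
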