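import Pool.Agent.U150.XH.Sub
import Pool.Agent.Results.MP_6e2fc3_nt.CMFormsAllWeights

/-!
# The Bloch–Kato Selmer groups over a fixed multiquadratic field of the Hilbert modular forms of the
# weights 2, 6, 10, … with complex multiplication: successive prime twists

Let `E_N` be the quadratic twist by `N` of `X_0(49)`, `ψ_N` its Hecke character over `K = ℚ(√-7)`. The
class consists of the squarefree numbers `≡ 1 mod 8` with all prime factors `1 mod 8` and split in `K`
or `5 mod 8` and inert in `K`. Let `d_1, …, d_n` be numbers of the class such that all the products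
of some of them are, up to squares, numbers `M` of the class with `E_M(ℚ)` finite and `Ш(E_M/ℚ)[2] = 0`
(this is always true if the prime factors of the `d_i` are inert in `K`), and
`F = ℚ(√d_1, …, √d_n)`, a totally real field. `P` is the set of the primes that divide a `d_i`.

For every `k > 0` the newform of `ψ_N^{2k-1}` has a base change to `F`, a Hilbert modular newform `g`
over `F` of parallel weight `2k` and trivial central character. Its Galois representation `V_g` at the
prime `2` is the restriction to `Gal(ℚ̄/F)` of the one induced from the character `κ^k κ'^(1-k)` of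
`Gal(ℚ̄/K)`, `κ`, `κ'` the characters of `Gal(ℚ̄/K)` on the `2`-adic Tate module of `E_N`.

`D` is ANY product of different primes, not in `P`, of two kinds: `1 mod 8`, split in `K` and squares
modulo all the elements of `P`; `5 mod 8`, inert in `K` and squares modulo the elements of `P` that
split. We twist successively by primes of the two kinds in any given order, the last one inert:
`N = D p_k ⋯ p_0`. We take means over the primes `p_0` up to `X`, `X → ∞` (this is the order of the
levels of the forms `g`), then over `p_1`, …, at last over `p_k`. We prove: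

* the iterated density of the `N`, for which all the twists `E_{N ∏_{i ∈ T} d_i}` have finitely many
  rational points and `Ш[2] = 0`, exists, and is the probability of `0` after `t` steps of the Markov
  chain `r → r - 1` with probability `1 - 2 ^ -r`, `r → r` and `r → r + 1` with probability
  `2 ^ -(r + 1)`, `t` the number of the split primes among the `p_i`; the first law is that of the corank
  of `A + Y`, `A` the explicit matrix of the quadratic and quartic symbols of `D` over the field with
  two elements, `Y` a random diagonal matrix. It does not depend on the field `F`;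
* with at least this iterated lower density, for ALL the subfields `F' = ℚ(√e_1, …, √e_m)` of `F` at
  the same time, `H¹_f(F', V_g) = 0` for the forms of ALL the weights `2k`, `k` odd;
* it is at least `2 ^ -(m + t)`, `m` the number of the split primes of `D`, and differs from
  `c = ∏ (1 - 2^{-(2i+1)}) = 0.419…` by at most `∏_{1 ≤ i ≤ m} (2 ^ i - 1) / 2 ^ t`, for ALL `F`.

In the starting file `CMFormsAllWeights` the proportion (of all `D` of the class) for the fields of
degree `2 ^ n` is `c ^ (2 ^ n)`.

Authors: helper150 (this file, `U150/XG` and `U150/XH`), helper687 (the Markov chain, `U687/Q2`),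
helper413 (`R413/SQ`) and the authors of the starting files.
-/

set_option autoImplicit false

open scoped Classical ENNReal

namespace Pool.Agent.Results.MP_6e2fc3_nt.PrimeTwistsOfCMForms

open Filter
open Pool.Agent.U150.XH.Def8 (Split Inert Member Kind residue primes average lowerMean upperMean
  indicator Density split nonsq quartic mat law markov splitSteps chain c divisors prods)
open Pool.Agent.Results.MP_787500_nt.AllWeightsMultiquadraticX49 (Adm Good RankZeroShaTwo)
open Pool.Agent.Results.MP_6e2fc3_nt.CMFormsAllWeights (AllForms)

/-- For all the fields `F' = ℚ(√e_1, …, √e_m)`, the `e_j` products of some of the `d_i` (these are the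
subfields of `F = ℚ(√d_1, …, √d_n)`): `H¹_f(F', V_g) = 0` for the forms of all the weights `2k`, `k` odd. -/
def Vanishing {n : ℕ} (d : Fin n → ℕ) (N : ℕ) : Prop :=
  ∀ (m : ℕ) (T : Fin m → Finset (Fin n)), AllForms N (prods d T)

/-- **The Bloch–Kato Selmer groups over `F` of the forms of all weights: successive prime twists.** -/
theorem result {n : ℕ} (d : Fin n → ℕ) (hd : ∀ i, Adm (d i)) :
    ((∀ i, ∀ p : ℕ, p.Prime → p ∣ d i → p % 8 = 5) → Good 1 d) ∧
    (Good 1 d → ∀ κ : ℕ → Bool, κ 0 = false → ∀ D : ℕ, Member (divisors d) D →
      (∀ k : ℕ, (D * ∏ i ∈ Finset.range (k + 1), residue (κ i)) % 8 = 1 →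
        Density (divisors d) κ (fun N => Good N d) k D (chain κ k D 0) ∧
        Density (divisors d) κ RankZeroShaTwo k D (chain κ k D 0) ∧
        ENNReal.ofReal (chain κ k D 0) ≤
          lowerMean (divisors d) κ (indicator (Vanishing d)) (k + 1) D ∧
        (1 / 2 : ℝ) ^ ((split D).card + splitSteps κ k) ≤ chain κ k D 0 ∧
        |chain κ k D 0 - c| ≤
          (∏ i ∈ Finset.range (split D).card, ((2 : ℝ) ^ (i + 1) - 1)) / 2 ^ splitSteps κ k) ∧
      ((∃ᶠ i in atTop, κ i = true) → Tendsto (fun k => chain κ k D 0) atTop (nhds c))) ∧
    0.4194 < c ∧ c < 0.4195 := by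
  refine ⟨Pool.Agent.U150.XH.Def8.good_inert hd, fun h1 κ h0 D hD => ⟨fun k hR => ⟨?_, ?_, ?_,
    Pool.Agent.U150.XH.Def8.chain_ge κ k hD, Pool.Agent.U150.XH.Def8.dist_c κ k hD⟩, fun hF =>
    Pool.Agent.U150.XH.Def8.chain_tendsto κ hF hD⟩, Pool.Agent.U150.XH.Def8.c_bounds⟩
  · exact Pool.Agent.U150.XH.Def8.density hd h1 h0 k hD hR
  · exact Pool.Agent.U150.XH.Def8.density_rz hd h0 k hD hR
  · exact Pool.Agent.U150.XH.Def8.lower_of hd h1 h0 k hD hR fun N h m T =>
      Pool.Agent.Results.MP_6e2fc3_nt.CMFormsAllWeights.result.1 m N _
        (Pool.Agent.U150.XH.Def8.good_sub hd h T)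

end Pool.Agent.Results.MP_6e2fc3_nt.PrimeTwistsOfCMForms
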